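import Pool.Agent.Work.MP_9e9244_an.Wrap
import Pool.Agent.Work.MP_9e9244_an.ParGeom
import Pool.Agent.Work.MP_9e9244_an.ParComplete

open MeasureTheory Set
open scoped ENNReal ComplexConjugate

namespace Pool.Agent.Results.MP_9e9244_an.Parallelogram

open Pool.Agent.Work.MP_9e9244_an

/-- **Q2.** The boundary length measure of every parallelogram with nonempty interior (in
particular of every square) admits an exponential Riesz basis. -/
theorem result (A u v : Plane) (h : LinearIndependent ℝ ![u, v]) :
    ∃ Λ : Set Plane, IsExpRieszBasis (boundaryLength (parallelogram A u v)) Λ := by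
  have hex := fun j : Fin 4 × ℤ => exists_vector_par h (freqA j) (freqB j)
  choose lam hu hv using hex
  have hE : ∀ (j : Fin 4 × ℤ) (i : Fin 4) (t : ℝ),
      expo (lam j) (arc (parA A u v i) (parB A u v i) t)
        = e (inner ℝ (lam j) A) * parE j i t := by
    intro j i t
    rw [expo_eq, parE, ← e_add]
    congr 1
    fin_cases i
    · change inner ℝ (lam j) (A + t • (A + u - A)) = inner ℝ (lam j) A + freqA j * t
      rw [add_sub_cancel_left, inner_add_right, inner_smul_right, hu]
      ring
    · change inner ℝ (lam j) (A + v + t • (A + v + u - (A + v)))
        = inner ℝ (lam j) A + (freqB j + freqA j * t)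
      rw [add_sub_cancel_left, inner_add_right, inner_add_right, inner_smul_right, hu, hv]
      ring
    · change inner ℝ (lam j) (A + t • (A + v - A)) = inner ℝ (lam j) A + freqB j * t
      rw [add_sub_cancel_left, inner_add_right, inner_smul_right, hv]
      ring
    · change inner ℝ (lam j) (A + u + t • (A + u + v - (A + u)))
        = inner ℝ (lam j) A + (freqA j + freqB j * t)
      rw [add_sub_cancel_left, inner_add_right, inner_add_right, inner_smul_right, hu, hv]
      ring
  have h2 := polygon_criterion (parallelogram A u v) (parA A u v) (parB A u v)
    (parA_ne_parB A h) (parallelogram_frontier A h) (parallelogram_inter A h) lam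
    (fun j => e (inner ℝ (lam j) A)) (fun j => norm_e _)
    parE hE (1 / 6) 16 (by norm_num) par_lower par_upper par_complete
  exact ⟨range lam, h2⟩

end Pool.Agent.Results.MP_9e9244_an.Parallelogram
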