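import Pool.Agent.Work.MP_9e9244_an.Wrap
import Pool.Agent.Work.MP_9e9244_an.TriGeom
import Pool.Agent.Work.MP_9e9244_an.TriComplete

open MeasureTheory Set
open scoped ENNReal ComplexConjugate

namespace Pool.Agent.Results.MP_9e9244_an.Triangle

open Pool.Agent.Work.MP_9e9244_an

/-- A vector whose inner products with the three vertices are prescribed up to a common
constant. -/
theorem exists_vector (P : Fin 3 → Plane) (hP : AffineIndependent ℝ P) (l : Fin 3 → ℝ) :
    ∃ (v : Plane) (κ : ℝ), ∀ i, inner ℝ v (P i) = κ + l i := by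
  set b := triBasis P hP with hb
  let L : Plane →ₗ[ℝ] ℝ := ∑ i, l i • (b.coord i).linear
  refine ⟨(InnerProductSpace.toDual ℝ Plane).symm (LinearMap.toContinuousLinearMap L),
    inner ℝ ((InnerProductSpace.toDual ℝ Plane).symm (LinearMap.toContinuousLinearMap L)) (P 0)
      - l 0, fun j => ?_⟩
  have h1 : inner ℝ ((InnerProductSpace.toDual ℝ Plane).symm
      (LinearMap.toContinuousLinearMap L)) (P j - P 0) = l j - l 0 := by
    rw [InnerProductSpace.toDual_symm_apply, LinearMap.coe_toContinuousLinearMap']
    have h2 : ∀ i k, (b.coord i) (P k) = if i = k then 1 else 0 := fun i k =>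
      AffineBasis.coord_apply b i k
    have h3 : ∀ i, (b.coord i).linear (P j - P 0)
        = (if i = j then (1 : ℝ) else 0) - (if i = 0 then (1 : ℝ) else 0) := by
      intro i
      have h4 := (b.coord i).linearMap_vsub (P j) (P 0)
      rw [vsub_eq_sub, vsub_eq_sub, h2, h2] at h4
      exact h4
    simp only [L, LinearMap.sum_apply, LinearMap.smul_apply, h3, smul_eq_mul, mul_sub,
      Finset.sum_sub_distrib, mul_ite, mul_one, mul_zero, Finset.sum_ite_eq',
      Finset.mem_univ, if_true]
  rw [inner_sub_right] at h1
  linarith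

/-- **Q1.** The boundary length measure of every triangle admits an exponential Riesz basis. -/
theorem result (P : Fin 3 → Plane) (hP : AffineIndependent ℝ P) :
    ∃ Λ : Set Plane, IsExpRieszBasis (boundaryLength (convexHull ℝ (range P))) Λ := by
  have hex := fun n : ℤ => exists_vector P hP
    (fun j => (n / 3 : ℝ) * eps (((j : Fin 3) : ℕ) - n))
  choose lam κ hlam using hex
  have hE : ∀ (n : ℤ) (i : Fin 3) (t : ℝ),
      expo (lam n) (arc (P (i + 1)) (P (i + 2)) t) = e (κ n) * triE n i t := by
    intro n i t
    rw [expo_eq, triE, ← e_add]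
    congr 1
    rw [arc, inner_add_right, inner_smul_right, inner_sub_right, hlam, hlam]
    ring
  have h2 := polygon_criterion (convexHull ℝ (range P))
    (fun i : Fin 3 => P (i + 1)) (fun i => P (i + 2))
    (fun i h => add_one_ne_add_two i (hP.injective h))
    (triangle_frontier P hP) (triangle_inter P hP) lam (fun n => e (κ n)) (fun n => norm_e _)
    triE hE (1 / 56) 10 (by norm_num) tri_lower tri_upper tri_complete
  exact ⟨range lam, h2⟩

end Pool.Agent.Results.MP_9e9244_an.Triangle
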